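import Pool.Agent.J4.H7.FG.Van

/-!
# The greatest common divisor of a sparse integer and a Fermat number
-/

set_option autoImplicit false

namespace Pool.Agent.J4.H7.FG

open Finset

/-- simultaneous approximation -/
lemma dirichlet (K t N : ℕ) (ht : 0 < t) (hN : 0 < N) (a : Fin K → ℕ) : ∃ q : ℕ, 0 < q ∧ q ≤ t ^ K ∧
    ∃ α : Fin K → ℤ, ∀ i, (t : ℤ) * |(q : ℤ) * a i - α i * N| < N := by
  have hbox : ∀ (n : ℕ) (i : Fin K), t * (n * a i % N) / N < t := by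
    intro n i
    rw [Nat.div_lt_iff_lt_mul hN]
    exact Nat.mul_lt_mul_of_pos_left (Nat.mod_lt _ hN) ht
  obtain ⟨f, hf⟩ : ∃ f : Fin (t ^ K + 1) → (Fin K → Fin t), f = fun n i => ⟨t * ((n : ℕ) * a i % N) / N, hbox n i⟩ := ⟨_, rfl⟩
  obtain ⟨n, n', hne, hnn⟩ : ∃ n n', n ≠ n' ∧ f n = f n' := by
    apply Fintype.exists_ne_map_eq_of_card_lt
    rw [Fintype.card_fun, Fintype.card_fin, Fintype.card_fin, Fintype.card_fin]
    exact Nat.lt_succ_self _
  wlog hlt : n < n' generalizing n n'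
  · exact this n' n hne.symm hnn.symm (lt_of_le_of_ne (not_lt.1 hlt) hne.symm)
  have hlt' : (n : ℕ) < n' := hlt
  refine ⟨(n' : ℕ) - n, by omega, by omega, fun i => (((n' : ℕ) * a i / N : ℕ) : ℤ) - (((n : ℕ) * a i / N : ℕ) : ℤ), fun i => ?_⟩
  have h1 : t * ((n : ℕ) * a i % N) / N = t * ((n' : ℕ) * a i % N) / N := by
    have := congrArg Fin.val (congrFun hnn i)
    rw [hf] at this
    exact this
  obtain ⟨x, hx⟩ : ∃ x, x = (n : ℕ) * a i % N := ⟨_, rfl⟩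
  obtain ⟨x', hx'⟩ : ∃ x', x' = (n' : ℕ) * a i % N := ⟨_, rfl⟩
  obtain ⟨y, hy⟩ : ∃ y, y = (n : ℕ) * a i / N := ⟨_, rfl⟩
  obtain ⟨y', hy'⟩ : ∃ y', y' = (n' : ℕ) * a i / N := ⟨_, rfl⟩
  have e1 : N * y + x = n * a i := by rw [hx, hy]; exact Nat.div_add_mod _ _
  have e2 : N * y' + x' = n' * a i := by rw [hx', hy']; exact Nat.div_add_mod _ _
  rw [← hx, ← hx'] at h1
  simp only
  rw [← hy, ← hy', Nat.cast_sub hlt'.le]
  have z1 : (N : ℤ) * y + x = n * a i := by exact_mod_cast e1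
  have z2 : (N : ℤ) * y' + x' = n' * a i := by exact_mod_cast e2
  have e3 : (((n' : ℕ) : ℤ) - ((n : ℕ) : ℤ)) * a i - ((y' : ℤ) - y) * N = (x' : ℤ) - x := by
    linear_combination z1 - z2
  rw [e3]
  have e4 : t * x < N * (t * x / N) + N := by
    have := Nat.lt_mul_div_succ (t * x) hN
    rwa [Nat.mul_succ] at this
  have e5 : t * x' < N * (t * x' / N) + N := by
    have := Nat.lt_mul_div_succ (t * x') hN
    rwa [Nat.mul_succ] at this
  have e6 : N * (t * x / N) ≤ t * x := Nat.mul_div_le _ _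
  have e7 : N * (t * x' / N) ≤ t * x' := Nat.mul_div_le _ _
  rw [h1] at e4 e6
  have z4 : (t : ℤ) * x < t * x' + N := by
    have : t * x < t * x' + N := by omega
    exact_mod_cast this
  have z5 : (t : ℤ) * x' < t * x + N := by
    have : t * x' < t * x + N := by omega
    exact_mod_cast this
  have ht' : (0 : ℤ) ≤ t := Int.natCast_nonneg _
  rw [← abs_of_nonneg ht', ← abs_mul, abs_lt]
  constructor <;> rw [mul_sub] <;> linarith

/-- all exponents below `2 ^ m`, one of them zero -/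
theorem gcd_reduced (m K t : ℕ) (ht : 0 < t) (u : Fin (K + 1) → ℤ) (a : Fin (K + 1) → ℕ) (ha0 : a 0 = 0)
    (ha : ∀ i, a i < 2 ^ m) (hF : ¬ (2 : ℤ) ^ (2 ^ m) + 1 ∣ ∑ i, u i * 2 ^ (a i)) (e : ℕ)
    (he : e ∣ 2 ^ (2 ^ m) + 1) (hD : (e : ℤ) ∣ ∑ i, u i * 2 ^ (a i)) :
    (e : ℤ) ≤ (4 * ∑ i, |u i|) ^ (t ^ K) * 4 ^ (2 ^ m / t) := by
  obtain ⟨N, hN⟩ : ∃ N, N = 2 ^ m := ⟨_, rfl⟩
  have hN0 : 0 < N := by rw [hN]; positivity
  have hU : 1 ≤ ∑ i, |u i| := by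
    by_contra hcon
    push Not at hcon
    have h0 : ∑ i, |u i| = 0 := le_antisymm (by omega) (Finset.sum_nonneg fun i _ => abs_nonneg _)
    rw [Finset.sum_eq_zero_iff_of_nonneg fun i _ => abs_nonneg _] at h0
    apply hF
    rw [Finset.sum_eq_zero]
    · exact dvd_zero _
    · intro i hi
      rw [abs_eq_zero.1 (h0 i hi), zero_mul]
  obtain ⟨q, hq, hqt, α, hα⟩ := dirichlet K t N ht hN0 (fun i => a i.succ)
  have hmono : ∀ B : ℤ, 1 ≤ B → B ^ q ≤ B ^ (t ^ K) := fun B hB => pow_le_pow_right₀ hB hqt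
  rcases Nat.lt_or_ge N q with hqN | hqN
  · -- the trivial case
    have h1 : (e : ℤ) ≤ 2 ^ N + 1 := by
      have : e ≤ 2 ^ N + 1 := Nat.le_of_dvd (Nat.succ_pos _) (by rw [hN]; exact he)
      exact_mod_cast this
    have h2 : (2 : ℤ) ^ N + 1 ≤ 4 ^ q := by
      calc (2 : ℤ) ^ N + 1 ≤ 2 ^ N + 2 ^ N := by
            have : (1 : ℤ) ≤ 2 ^ N := one_le_pow₀ (by norm_num)
            linarith
        _ = 2 ^ (N + 1) := by rw [pow_succ]; ring
        _ ≤ 2 ^ q := pow_le_pow_right₀ (by norm_num) (by omega)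
        _ ≤ 4 ^ q := pow_le_pow_left₀ (by norm_num) (by norm_num) _
    have h3 : (4 : ℤ) ^ q ≤ (4 * ∑ i, |u i|) ^ q := pow_le_pow_left₀ (by norm_num) (by linarith) _
    have h4 := hmono (4 * ∑ i, |u i|) (by linarith)
    have h5 : (1 : ℤ) ≤ 4 ^ (2 ^ m / t) := one_le_pow₀ (by norm_num)
    have h6 : 0 ≤ (4 * ∑ i, |u i|) ^ (t ^ K) := by positivity
    calc (e : ℤ) ≤ (4 * ∑ i, |u i|) ^ (t ^ K) * 1 := by linarith
      _ ≤ _ := mul_le_mul_of_nonneg_left h5 h6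
  · -- the core
    have hNz : (0 : ℤ) < N := by exact_mod_cast hN0
    have htz : (1 : ℤ) ≤ t := by exact_mod_cast ht
    have hb : ∀ i, 0 ≤ α i ∧ α i ≤ q := by
      intro i
      have h1 := hα i
      have h2 : (a i.succ : ℤ) < N := by rw [hN]; exact_mod_cast ha i.succ
      have h3 : (0 : ℤ) ≤ a i.succ := Int.natCast_nonneg _
      have hqz : (0 : ℤ) < q := by exact_mod_cast hq
      have h4 : |(q : ℤ) * a i.succ - α i * N| < N := by
        calc |(q : ℤ) * a i.succ - α i * N| ≤ t * |(q : ℤ) * a i.succ - α i * N| :=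
              le_mul_of_one_le_left (abs_nonneg _) htz
          _ < N := h1
      rw [abs_lt] at h4
      constructor
      · by_contra hcon
        push Not at hcon
        have h5 : α i ≤ -1 := by omega
        have h6 : α i * N ≤ -1 * N := mul_le_mul_of_nonneg_right h5 hNz.le
        have h7 : 0 ≤ (q : ℤ) * a i.succ := mul_nonneg hqz.le h3
        linarith
      · by_contra hcon
        push Not at hcon
        have h5 : (q : ℤ) + 1 ≤ α i := by omega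
        have h6 : ((q : ℤ) + 1) * N ≤ α i * N := mul_le_mul_of_nonneg_right h5 hNz.le
        have h7 : (q : ℤ) * a i.succ ≤ q * N := mul_le_mul_of_nonneg_left h2.le hqz.le
        linarith
    obtain ⟨β, hβ⟩ : ∃ β : Fin (K + 1) → ℕ, β = Fin.cons 0 (fun i => (α i).toNat) := ⟨_, rfl⟩
    have hβ0 : β 0 = 0 := by rw [hβ]; rfl
    have hβs : ∀ i : Fin K, β i.succ = (α i).toNat := fun i => by rw [hβ]; rfl
    have h1 := core m q t hq (by rw [← hN]; exact hqN) ht u a β (by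
      intro i
      refine Fin.cases ?_ (fun i => ?_) i
      · rw [hβ0]; exact Nat.zero_le _
      · rw [hβs]
        have := (hb i).2
        omega) (by
      intro i
      refine Fin.cases ?_ (fun i => ?_) i
      · rw [hβ0, ha0]
        simp
      · rw [hβs, Int.toNat_of_nonneg (hb i).1, ← hN]
        exact (hα i).le) hF e he hD
    refine h1.trans (mul_le_mul_of_nonneg_right (hmono _ (by linarith)) (by positivity))

/-- **the general bound** -/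
theorem gcd_bound (m K t : ℕ) (ht : 0 < t) (u : Fin (K + 1) → ℤ) (a : Fin (K + 1) → ℕ)
    (hF : ¬ (2 : ℤ) ^ (2 ^ m) + 1 ∣ ∑ i, u i * 2 ^ (a i)) :
    ((∑ i, u i * 2 ^ (a i)).gcd (2 ^ (2 ^ m) + 1) : ℤ) ≤ (4 * ∑ i, |u i|) ^ (t ^ K) * 4 ^ (2 ^ m / t) := by
  obtain ⟨N, hN⟩ : ∃ N, N = 2 ^ m := ⟨_, rfl⟩
  have hN0 : 0 < N := by rw [hN]; positivity
  obtain ⟨F, hFd⟩ : ∃ F : ℤ, F = 2 ^ N + 1 := ⟨_, rfl⟩
  rw [← hN] at hF ⊢
  rw [← hFd] at hF ⊢
  obtain ⟨D, hD⟩ : ∃ D, D = ∑ i, u i * 2 ^ (a i) := ⟨_, rfl⟩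
  rw [← hD] at hF ⊢
  -- the shifted exponents
  obtain ⟨c, hc⟩ : ∃ c : Fin (K + 1) → ℕ, c = fun i => (a i + (2 * N - 1) * a 0) % (2 * N) := ⟨_, rfl⟩
  obtain ⟨b, hb⟩ : ∃ b : Fin (K + 1) → ℕ, b = fun i => if c i < N then c i else c i - N := ⟨_, rfl⟩
  obtain ⟨v, hv⟩ : ∃ v : Fin (K + 1) → ℤ, v = fun i => if c i < N then u i else - u i := ⟨_, rfl⟩
  have hcl : ∀ i, c i < 2 * N := fun i => by rw [hc]; exact Nat.mod_lt _ (by omega)
  have hc0 : c 0 = 0 := by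
    rw [hc]
    simp only
    rw [show a 0 + (2 * N - 1) * a 0 = (2 * N) * a 0 by
      have : 2 * N = (2 * N - 1) + 1 := by omega
      conv_rhs => rw [this]
      ring]
    exact Nat.mul_mod_right _ _
  have hb0 : b 0 = 0 := by
    rw [hb]
    simp only
    rw [hc0, if_pos hN0]
  have hbl : ∀ i, b i < 2 ^ m := by
    intro i
    have := hcl i
    rw [← hN, hb]
    simp only
    split_ifs <;> omega
  have hFN : (2 : ℤ) ^ N ≡ -1 [ZMOD F] := by
    rw [Int.modEq_iff_dvd, hFd]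
    exact ⟨-1, by ring⟩
  have hF2N : (2 : ℤ) ^ (2 * N) ≡ 1 [ZMOD F] := by
    have := hFN.pow 2
    rw [← pow_mul, mul_comm N 2] at this
    simpa using this
  have hmod : ∀ n : ℕ, (2 : ℤ) ^ n ≡ 2 ^ (n % (2 * N)) [ZMOD F] := by
    intro n
    conv_lhs => rw [← Nat.div_add_mod n (2 * N), pow_add, pow_mul]
    have := (hF2N.pow (n / (2 * N))).mul_right (2 ^ (n % (2 * N)))
    rw [one_pow, one_mul] at this
    exact this
  have hterm : ∀ i, v i * 2 ^ (b i) ≡ (u i * 2 ^ (a i)) * 2 ^ ((2 * N - 1) * a 0) [ZMOD F] := by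
    intro i
    have h1 : (u i * 2 ^ (a i)) * 2 ^ ((2 * N - 1) * a 0) = u i * 2 ^ (a i + (2 * N - 1) * a 0) := by
      rw [pow_add]; ring
    rw [h1]
    have h2 : u i * 2 ^ (a i + (2 * N - 1) * a 0) ≡ u i * 2 ^ (c i) [ZMOD F] := by
      rw [hc]
      exact (hmod _).mul_left _
    refine Int.ModEq.trans ?_ h2.symm
    rw [hv, hb]
    simp only
    split_ifs with h3
    · exact Int.ModEq.refl _
    · have h4 : (2 : ℤ) ^ (c i) = 2 ^ N * 2 ^ (c i - N) := by rw [← pow_add]; congr 1; omega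
      rw [h4]
      have h5 := (hFN.mul_right (2 ^ (c i - N))).mul_left (u i)
      refine Int.ModEq.trans ?_ h5.symm
      have : -u i * 2 ^ (c i - N) = u i * (-1 * 2 ^ (c i - N)) := by ring
      rw [this]
  have hsum : ∑ i, v i * 2 ^ (b i) ≡ D * 2 ^ ((2 * N - 1) * a 0) [ZMOD F] := by
    rw [hD, Finset.sum_mul]
    exact Int.ModEq.sum fun i _ => hterm i
  have hcop : IsCoprime F ((2 : ℤ) ^ ((2 * N - 1) * a 0)) := by
    apply IsCoprime.pow_right
    refine ⟨1, -2 ^ (N - 1), ?_⟩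
    rw [hFd]
    have : (2 : ℤ) ^ N = 2 ^ (N - 1) * 2 := by rw [← pow_succ, Nat.sub_add_cancel hN0]
    rw [this]
    ring
  have hF' : ¬ F ∣ ∑ i, v i * 2 ^ (b i) := by
    intro h
    have h1 : F ∣ D * 2 ^ ((2 * N - 1) * a 0) := (Int.ModEq.dvd_iff hsum).1 h
    exact hF (hcop.dvd_of_dvd_mul_right h1)
  have hvu : ∑ i, |v i| = ∑ i, |u i| := by
    apply Finset.sum_congr rfl
    intro i _
    rw [hv]
    simp only
    split_ifs
    · rfl
    · rw [abs_neg]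
  rw [← hvu, hN]
  apply gcd_reduced m K t ht v b hb0 hbl
  · rw [← hN, ← hFd]; exact hF'
  · have h1 : ((D.gcd F : ℕ) : ℤ) ∣ F := Int.gcd_dvd_right _ _
    rw [hFd, hN] at h1
    have h2 : ((D.gcd ((2 : ℤ) ^ (2 ^ m) + 1) : ℕ) : ℤ) ∣ ((2 ^ (2 ^ m) + 1 : ℕ) : ℤ) := by
      push_cast
      exact h1
    rw [hFd, hN]
    exact Int.natCast_dvd_natCast.1 h2
  · have h1 : ((D.gcd F : ℕ) : ℤ) ∣ D := Int.gcd_dvd_left _ _
    have h2 : ((D.gcd F : ℕ) : ℤ) ∣ F := Int.gcd_dvd_right _ _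
    have h3 : ∑ i, v i * 2 ^ (b i) ≡ D * 2 ^ ((2 * N - 1) * a 0) [ZMOD ((D.gcd F : ℕ) : ℤ)] := hsum.of_dvd h2
    exact (Int.ModEq.dvd_iff h3).2 (h1.mul_right _)

end Pool.Agent.J4.H7.FG
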