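import Mathlib

/-!
# Irreducibility of `X ^ q + 2 ^ (2 ^ m)`, `q ≤ 2 ^ m`
-/

set_option autoImplicit false

namespace Pool.Agent.J4.H7.FG

open Polynomial IntermediateField

/-- `X ^ (2 ^ j) + 1` is irreducible over `ℚ`. -/
lemma irr_cyc (j : ℕ) : Irreducible (X ^ (2 ^ j) + 1 : ℚ[X]) := by
  have h := cyclotomic.irreducible_rat (n := 2 ^ (j + 1)) (by positivity)
  rwa [cyclotomic_prime_pow_eq_geom_sum Nat.prime_two, Finset.sum_range_succ,
    Finset.sum_range_one, pow_zero, pow_one, add_comm] at h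

/-- `X ^ (2 ^ j) + c ^ (2 ^ j)` is irreducible over `ℚ`, `c ≠ 0`. -/
lemma irr_scale (j : ℕ) (c : ℚ) (hc : c ≠ 0) : Irreducible (X ^ (2 ^ j) + C (c ^ (2 ^ j)) : ℚ[X]) := by
  let _ : Invertible c⁻¹ := invertibleOfNonzero (inv_ne_zero hc)
  have h1 : Irreducible (algEquivCMulXAddC c⁻¹ 0 (X ^ (2 ^ j) + 1 : ℚ[X])) :=
    (MulEquiv.irreducible_iff (algEquivCMulXAddC c⁻¹ (0 : ℚ))).2 (irr_cyc j)
  have h2 : algEquivCMulXAddC c⁻¹ 0 (X ^ (2 ^ j) + 1 : ℚ[X]) =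
      C (c⁻¹ ^ (2 ^ j)) * (X ^ (2 ^ j) + C (c ^ (2 ^ j))) := by
    simp only [algEquivCMulXAddC_apply, map_add, map_pow, aeval_X, map_one, map_zero, add_zero,
      mul_add, mul_pow]
    rw [← mul_pow (C c⁻¹) (C c), ← C_mul, inv_mul_cancel₀ hc, C_1, one_pow]
  rw [h2] at h1
  have hu : IsUnit (C (c⁻¹ ^ (2 ^ j)) : ℚ[X]) := isUnit_C.2 (IsUnit.mk0 _ (pow_ne_zero _ (inv_ne_zero hc)))
  exact (irreducible_isUnit_mul hu).1 h1

/-- a criterion over a general field -/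
theorem irr_crit {K : Type} [Field K] (n m : ℕ) (hm0 : m ≠ 0) (a : K) (hm : Irreducible (X ^ m - C a))
    (hn : Odd n) (ha : ∀ p : ℕ, p.Prime → p ∣ n → ∀ c : K, c ^ p ≠ (-1) ^ m * -a) :
    Irreducible (X ^ (n * m) - C a) := by
  apply X_pow_mul_sub_C_irreducible hm
  intro E _ _ x hx
  have hint : IsIntegral K x := not_not.mp fun h ↦ by
    have h3 : (X ^ m - C a : K[X]) = 0 := hx.symm.trans (dif_neg h)
    exact hm.ne_zero h3
  apply X_pow_sub_C_irreducible_of_odd hn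
  intro p hp hpq b hb
  apply ha p hp hpq (Algebra.norm _ b)
  rw [← map_pow, hb, ← adjoin.powerBasis_gen hint,
    Algebra.PowerBasis.norm_gen_eq_coeff_zero_minpoly]
  simp [minpoly_gen, hx, hm0.symm, adjoin.powerBasis_dim]

/-- the polynomial `X ^ q + 2 ^ r` with `q = q' 2 ^ j`, `r = r' 2 ^ j` is irreducible if `q'` is odd and prime
to `r'`. -/
theorem irr_gen (j q' r' : ℕ) (hq : Odd q') (hqr : Nat.Coprime q' r') :
    Irreducible (X ^ (q' * 2 ^ j) - C (-(2 : ℚ) ^ (r' * 2 ^ j)) : ℚ[X]) := by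
  have h0 : Irreducible (X ^ (2 ^ j) - C (-(2 : ℚ) ^ (r' * 2 ^ j)) : ℚ[X]) := by
    have := irr_scale j ((2 : ℚ) ^ r') (by positivity)
    rw [C_neg, sub_neg_eq_add, pow_mul]
    exact this
  apply irr_crit q' (2 ^ j) (by positivity) _ h0 hq
  intro p hp hpq b hb
  have hpodd : p ≠ 2 := by
    rintro rfl
    exact (Nat.not_even_iff_odd.2 hq) (even_iff_two_dvd.2 hpq)
  have hn2 : |b| ^ p = (2 : ℚ) ^ (r' * 2 ^ j) := by
    rw [← abs_pow, hb, neg_neg, abs_mul, abs_pow, abs_neg, abs_one, one_pow, one_mul, abs_of_pos (by positivity)]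
  -- valuations
  have : Fact (Nat.Prime 2) := ⟨Nat.prime_two⟩
  have hb0 : |b| ≠ 0 := by
    intro h
    rw [h, zero_pow hp.ne_zero] at hn2
    exact absurd hn2.symm (by positivity)
  have h5 : (p : ℤ) * padicValRat 2 |b| = (r' * 2 ^ j : ℕ) := by
    have e1 : padicValRat 2 (|b| ^ p) = (r' * 2 ^ j : ℕ) := by
      rw [hn2, padicValRat.pow]
      have : padicValRat 2 (2 : ℚ) = 1 := by
        have := padicValRat.self (p := 2) (by norm_num)
        exact_mod_cast this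
      rw [this, mul_one]
    rwa [padicValRat.pow] at e1
  have h6 : p ∣ r' * 2 ^ j := by
    have : (p : ℤ) ∣ ((r' * 2 ^ j : ℕ) : ℤ) := ⟨_, h5.symm⟩
    exact_mod_cast this
  rcases (Nat.Prime.dvd_mul hp).1 h6 with h7 | h7
  · exact hp.one_lt.ne' (Nat.dvd_one.1 (hqr ▸ Nat.dvd_gcd hpq h7))
  · exact hpodd ((Nat.prime_dvd_prime_iff_eq hp Nat.prime_two).1 (hp.dvd_of_dvd_pow h7))

/-- `X ^ q + 2 ^ (2 ^ m)` is irreducible for `1 ≤ q ≤ 2 ^ m`. -/
theorem irr (m q : ℕ) (hq : 0 < q) (hqm : q ≤ 2 ^ m) :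
    Irreducible (X ^ q + C ((2 : ℚ) ^ (2 ^ m)) : ℚ[X]) := by
  obtain ⟨j, q', hq', hqj⟩ := Nat.exists_eq_two_pow_mul_odd hq.ne'
  have hjm : j ≤ m := by
    by_contra hcon
    push Not at hcon
    have h1 : 2 ^ m < 2 ^ j := Nat.pow_lt_pow_right (by norm_num) hcon
    have h2 : 2 ^ j ≤ q := by rw [hqj]; exact Nat.le_mul_of_pos_right _ hq'.pos
    omega
  have hcop : Nat.Coprime q' (2 ^ (m - j)) := Nat.Coprime.pow_right _ (Nat.coprime_two_right.2 hq')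
  have h := irr_gen j q' (2 ^ (m - j)) hq' hcop
  rw [C_neg, sub_neg_eq_add, mul_comm q', ← hqj, ← pow_add, Nat.sub_add_cancel hjm] at h
  exact h

end Pool.Agent.J4.H7.FG
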