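import Pool.Agent.J4.H7.FG.Irr

/-!
# The matrix of a sparse integer modulo a Fermat number
-/

set_option autoImplicit false

namespace Pool.Agent.J4.H7.FG

open Finset Polynomial

/-- the determinant is at most the product of the `l¹`-norms of the rows -/
lemma det_le_rows {n : Type} [Fintype n] [DecidableEq n] (A : Matrix n n ℤ) :
    |A.det| ≤ ∏ i, ∑ j, |A i j| := by
  rw [← Matrix.det_transpose, Matrix.det_apply]
  refine (Finset.abs_sum_le_sum_abs _ _).trans ?_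
  rw [Finset.prod_univ_sum]
  have h1 : ∀ σ : Equiv.Perm n, |Equiv.Perm.sign σ • ∏ i, A.transpose (σ i) i| = ∏ i, |A i (σ i)| := by
    intro σ
    rw [Units.smul_def, smul_eq_mul, abs_mul, Finset.abs_prod]
    rcases Int.units_eq_one_or (Equiv.Perm.sign σ) with h | h <;> simp [h, Matrix.transpose_apply]
  rw [Finset.sum_congr rfl fun σ _ => h1 σ]
  have h2 : ∑ σ : Equiv.Perm n, ∏ i, |A i (σ i)| =
      ∑ f ∈ Finset.univ.image (fun σ : Equiv.Perm n => (⇑σ : n → n)), ∏ i, |A i (f i)| := by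
    rw [Finset.sum_image]
    intro σ _ τ _ h
    exact Equiv.coe_fn_injective h
  rw [h2]
  refine Finset.sum_le_sum_of_subset_of_nonneg ?_ fun f _ _ => Finset.prod_nonneg fun i _ => abs_nonneg _
  intro f _
  rw [Fintype.mem_piFinset]
  exact fun i => Finset.mem_univ _

/-- a kernel vector with an entry `1` -/
lemma det_zero_of_mulVec {n R : Type} [Fintype n] [DecidableEq n] [CommRing R] (A : Matrix n n R) (v : n → R)
    (h : A.mulVec v = 0) (i : n) (hi : v i = 1) : A.det = 0 := by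
  have h1 : (A.adjugate * A).mulVec v = 0 := by
    rw [← Matrix.mulVec_mulVec, h, Matrix.mulVec_zero]
  rw [Matrix.adjugate_mul, Matrix.smul_mulVec, Matrix.one_mulVec] at h1
  have h2 := congrFun h1 i
  rw [Pi.smul_apply, hi, Pi.zero_apply, smul_eq_mul, mul_one] at h2
  exact h2

variable {ι : Type} [Fintype ι]

/-- the column -/
def kk (q α k : ℕ) : ℕ := if α ≤ k then k - α else q + k - α

/-- the exponent -/
def Ex (N q s a α k : ℕ) : ℤ :=
  s + a - ((N * k / q : ℕ) : ℤ) + ((N * kk q α k / q : ℕ) : ℤ) - (if α ≤ k then 0 else N)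

/-- the matrix -/
def Mx (N q s : ℕ) (u : ι → ℤ) (a α : ι → ℕ) : Matrix (Fin q) (Fin q) ℤ :=
  fun k k' => ∑ i, if (k' : ℕ) = kk q (α i) k then
    (if α i ≤ (k : ℕ) then 1 else -1) * u i * 2 ^ (Ex N q s (a i) (α i) k).toNat else 0

lemma kk_lt (q α k : ℕ) (hk : k < q) (hα : α ≤ q) : kk q α k < q := by
  unfold kk
  split_ifs <;> omega

/-- the exponents are small -/
lemma Ex_bounds (N q t a α k : ℕ) (hq : 0 < q) (ht : 0 < t) (hα : α ≤ q) (hk : k < q)
    (h : (t : ℤ) * |(q : ℤ) * a - α * N| ≤ N) :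
    0 ≤ Ex N q (N / (t * q) + 1) a α k ∧ Ex N q (N / (t * q) + 1) a α k ≤ 2 * (N / (t * q) + 1 : ℕ) := by
  obtain ⟨s', hs'⟩ : ∃ s', s' = N / (t * q) := ⟨_, rfl⟩
  have htq : 0 < t * q := Nat.mul_pos ht hq
  have hN : N < (s' + 1) * (t * q) := by
    rw [hs']
    have := Nat.lt_succ_self (N / (t * q))
    exact (Nat.div_lt_iff_lt_mul htq).1 this
  obtain ⟨x, hx⟩ : ∃ x, x = N * k / q := ⟨_, rfl⟩
  obtain ⟨y, hy⟩ : ∃ y, y = N * kk q α k / q := ⟨_, rfl⟩
  have hx1 : q * x ≤ N * k := by rw [hx]; exact Nat.mul_div_le _ _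
  have hx2 : N * k < q * x + q := by rw [hx]; exact Nat.lt_mul_div_succ _ hq |>.trans_eq (by ring)
  have hy1 : q * y ≤ N * kk q α k := by rw [hy]; exact Nat.mul_div_le _ _
  have hy2 : N * kk q α k < q * y + q := by rw [hy]; exact Nat.lt_mul_div_succ _ hq |>.trans_eq (by ring)
  obtain ⟨w, hw⟩ : ∃ w : ℤ, w = ((if α ≤ k then 0 else N : ℕ) : ℤ) := ⟨_, rfl⟩
  have hkk : (N : ℤ) * (kk q α k : ℤ) = N * k - N * α + q * w := by
    rw [hw]
    unfold kk
    split_ifs with h1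
    · rw [Nat.cast_sub h1]; push_cast; ring
    · rw [Nat.cast_sub (by omega)]; push_cast; ring
  unfold Ex
  rw [← hx, ← hy, ← hw, ← hs']
  have z1 : (q : ℤ) * x ≤ N * k := by exact_mod_cast hx1
  have z2 : (N : ℤ) * k < q * x + q := by exact_mod_cast hx2
  have z3 : (q : ℤ) * y ≤ N * kk q α k := by exact_mod_cast hy1
  have z4 : (N : ℤ) * kk q α k < q * y + q := by exact_mod_cast hy2
  have z5 : (N : ℤ) < (s' + 1) * (t * q) := by exact_mod_cast hN
  have ht' : (0 : ℤ) < t := by exact_mod_cast ht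
  have hq' : (0 : ℤ) < q := by exact_mod_cast hq
  rw [hkk] at z3 z4
  have h1 := abs_le.1 (le_refl |(q : ℤ) * a - α * N|)
  obtain ⟨A, hA⟩ : ∃ A : ℤ, A = |(q : ℤ) * a - α * N| := ⟨_, rfl⟩
  rw [← hA] at h h1
  obtain ⟨Δ, hΔ⟩ : ∃ Δ : ℤ, Δ = (a : ℤ) - x + y - w := ⟨_, rfl⟩
  have hqΔ : (q : ℤ) * Δ = q * a - q * x + q * y - q * w := by rw [hΔ]; ring
  have hcomm : (α : ℤ) * N = N * α := mul_comm _ _
  rw [hcomm] at h1
  have hqΔ1 : (q : ℤ) * Δ < A + q := by linarith [h1.2]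
  have hqΔ2 : -(A + q) < (q : ℤ) * Δ := by linarith [h1.1]
  have e0 : (t : ℤ) * (A + q) < (s' + 2) * (t * q) := by
    calc (t : ℤ) * (A + q) = t * A + t * q := by ring
      _ ≤ N + t * q := by linarith
      _ < (s' + 1) * (t * q) + t * q := by linarith
      _ = _ := by ring
  have htq' : (0 : ℤ) < t * q := mul_pos ht' hq'
  have e1 : (t * q : ℤ) * Δ < (s' + 2) * (t * q) := by
    calc (t * q : ℤ) * Δ = t * (q * Δ) := by ring
      _ < t * (A + q) := mul_lt_mul_of_pos_left hqΔ1 ht'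
      _ < _ := e0
  have e2 : -((s' + 2) * (t * q)) < (t * q : ℤ) * Δ := by
    calc -((s' + 2) * (t * q : ℤ)) < -(t * (A + q)) := neg_lt_neg e0
      _ = t * -(A + q) := by ring
      _ < t * (q * Δ) := mul_lt_mul_of_pos_left hqΔ2 ht'
      _ = _ := by ring
  have e3 : Δ < s' + 2 := by
    have : (t * q : ℤ) * Δ < (t * q) * (s' + 2) := by rw [mul_comm (t * q : ℤ) ((s' : ℤ) + 2)]; exact e1
    exact lt_of_mul_lt_mul_left this htq'.le
  have e4 : -((s' : ℤ) + 2) < Δ := by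
    have : (t * q : ℤ) * (-((s' : ℤ) + 2)) < (t * q) * Δ := by
      calc (t * q : ℤ) * (-((s' : ℤ) + 2)) = -((s' + 2) * (t * q)) := by ring
        _ < _ := e2
    exact lt_of_mul_lt_mul_left this htq'.le
  have e5 : ((s' + 1 : ℕ) : ℤ) + a - x + y - w = (s' + 1 : ℤ) + Δ := by rw [hΔ]; push_cast; ring
  rw [e5]
  push_cast
  constructor <;> linarith

/-- the natural exponent -/
lemma Ex_nat (N q s a α k : ℕ) (h0 : 0 ≤ Ex N q s a α k) :
    (Ex N q s a α k).toNat + N * k / q + (if α ≤ k then 0 else N) = s + a + N * kk q α k / q := by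
  have h1 : (((Ex N q s a α k).toNat : ℕ) : ℤ) = Ex N q s a α k := Int.toNat_of_nonneg h0
  unfold Ex at h1 ⊢
  split_ifs at h1 ⊢ with h2 <;> omega

/-- the absolute values of the rows -/
lemma row_le (N q t : ℕ) (u : ι → ℤ) (a α : ι → ℕ) (hq : 0 < q) (ht : 0 < t) (hα : ∀ i, α i ≤ q)
    (h : ∀ i, (t : ℤ) * |(q : ℤ) * a i - α i * N| ≤ N) (k : Fin q) :
    ∑ k' : Fin q, |Mx N q (N / (t * q) + 1) u a α k k'| ≤ (∑ i, |u i|) * 4 ^ (N / (t * q) + 1) := by
  have h1 : ∀ k' : Fin q, |Mx N q (N / (t * q) + 1) u a α k k'| ≤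
      ∑ i, if (k' : ℕ) = kk q (α i) k then |u i| * 4 ^ (N / (t * q) + 1) else 0 := by
    intro k'
    unfold Mx
    refine (Finset.abs_sum_le_sum_abs _ _).trans (Finset.sum_le_sum fun i _ => ?_)
    split_ifs with h2 h3
    · rw [one_mul, abs_mul, abs_pow, abs_two]
      apply mul_le_mul_of_nonneg_left _ (abs_nonneg _)
      have h4 := (Ex_bounds N q t (a i) (α i) k hq ht (hα i) k.2 (h i)).2
      rw [show (4 : ℤ) = 2 ^ 2 by norm_num, ← pow_mul]
      exact pow_le_pow_right₀ (by norm_num) (by omega)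
    · rw [neg_one_mul, abs_mul, abs_neg, abs_pow, abs_two]
      apply mul_le_mul_of_nonneg_left _ (abs_nonneg _)
      have h4 := (Ex_bounds N q t (a i) (α i) k hq ht (hα i) k.2 (h i)).2
      rw [show (4 : ℤ) = 2 ^ 2 by norm_num, ← pow_mul]
      exact pow_le_pow_right₀ (by norm_num) (by omega)
    · rw [abs_zero]
  refine (Finset.sum_le_sum fun k' _ => h1 k').trans ?_
  rw [Finset.sum_comm, Finset.sum_mul]
  apply Finset.sum_le_sum
  intro i _
  have h5 : ∑ k' : Fin q, (if (k' : ℕ) = kk q (α i) k then |u i| * 4 ^ (N / (t * q) + 1) else 0) =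
      |u i| * 4 ^ (N / (t * q) + 1) := by
    rw [Finset.sum_eq_single (⟨kk q (α i) k, kk_lt q (α i) k k.2 (hα i)⟩ : Fin q)]
    · rw [if_pos rfl]
    · intro b _ hb
      rw [if_neg]
      intro hcon
      exact hb (Fin.ext hcon)
    · intro hcon
      exact absurd (Finset.mem_univ _) hcon
  exact h5.le

/-- common divisors divide the determinant -/
lemma dvd_det (N q s : ℕ) (hN : 0 < N) (u : ι → ℤ) (a α : ι → ℕ) (hq : 0 < q) (hα : ∀ i, α i ≤ q)
    (hE : ∀ i, ∀ k < q, 0 ≤ Ex N q s (a i) (α i) k) (e : ℕ) (he : e ∣ 2 ^ N + 1)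
    (hD : (e : ℤ) ∣ ∑ i, u i * 2 ^ (a i)) : (e : ℤ) ∣ (Mx N q s u a α).det := by
  have hF : (2 : ZMod e) ^ N = -1 := by
    have h1 : ((2 ^ N + 1 : ℕ) : ZMod e) = 0 := (ZMod.natCast_eq_zero_iff _ _).2 he
    push_cast at h1
    exact eq_neg_of_add_eq_zero_left h1
  have hD' : ∑ i, (u i : ZMod e) * 2 ^ (a i) = 0 := by
    have h1 := (ZMod.intCast_zmod_eq_zero_iff_dvd (∑ i, u i * 2 ^ (a i)) e).2 hD
    push_cast at h1
    exact h1
  rw [← ZMod.intCast_zmod_eq_zero_iff_dvd]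
  -- the inverse of `2`
  obtain ⟨y, hy⟩ : ∃ y : ZMod e, 2 * y = 1 := by
    refine ⟨-2 ^ (N - 1), ?_⟩
    rw [mul_neg, ← pow_succ', Nat.sub_add_cancel hN, hF, neg_neg]
  have hyn : ∀ n : ℕ, (2 : ZMod e) ^ n * y ^ n = 1 := fun n => by rw [← mul_pow, hy, one_pow]
  have h2u : IsUnit (2 : ZMod e) := IsUnit.of_mul_eq_one y hy
  rw [show (((Mx N q s u a α).det : ℤ) : ZMod e) = ((Mx N q s u a α).map (Int.castRingHom (ZMod e))).det by
    rw [← RingHom.mapMatrix_apply, ← RingHom.map_det]; rfl]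
  apply det_zero_of_mulVec _ (fun k : Fin q => y ^ (N * (k : ℕ) / q)) _ ⟨0, hq⟩ (by simp)
  funext k
  rw [Pi.zero_apply, Matrix.mulVec, dotProduct]
  have hterm : ∀ k' : Fin q, ((Mx N q s u a α).map (Int.castRingHom (ZMod e))) k k' * y ^ (N * (k' : ℕ) / q) =
      ∑ i, if (k' : ℕ) = kk q (α i) k then (u i : ZMod e) * 2 ^ (s + a i) * y ^ (N * (k : ℕ) / q) else 0 := by
    intro k'
    rw [Matrix.map_apply]
    unfold Mx
    rw [eq_intCast, Int.cast_sum, Finset.sum_mul]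
    apply Finset.sum_congr rfl
    intro i _
    by_cases h : (k' : ℕ) = kk q (α i) k
    · rw [if_pos h, if_pos h]
      have h1 := Ex_nat N q s (a i) (α i) k (hE i k k.2)
      rw [← h] at h1
      obtain ⟨E, hE'⟩ : ∃ E, E = (Ex N q s (a i) (α i) (k : ℕ)).toNat := ⟨_, rfl⟩
      obtain ⟨n, hn⟩ : ∃ n, n = N * (k : ℕ) / q := ⟨_, rfl⟩
      obtain ⟨n', hn'⟩ : ∃ n', n' = N * (k' : ℕ) / q := ⟨_, rfl⟩
      rw [← hE', ← hn, ← hn'] at h1
      rw [← hE', ← hn, ← hn']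
      push_cast
      -- multiply by `2 ^ (n + n')`
      have key : (if α i ≤ (k : ℕ) then 1 else -1 : ZMod e) * 2 ^ (E + n) = 2 ^ (s + a i + n') := by
        rw [← h1]
        split_ifs with h2
        · rw [one_mul, add_zero]
        · rw [pow_add _ (E + n) N, hF]; ring
      have e1 : (if α i ≤ (k : ℕ) then 1 else -1 : ZMod e) * 2 ^ E * y ^ n' = 2 ^ (s + a i) * y ^ n := by
        have e2 : (if α i ≤ (k : ℕ) then 1 else -1 : ZMod e) * 2 ^ E = 2 ^ (s + a i + n') * y ^ n := by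
          rw [← key, pow_add, ← mul_assoc, mul_assoc _ ((2 : ZMod e) ^ n), hyn, mul_one]
        rw [e2, pow_add _ (s + a i) n', mul_assoc, mul_assoc, mul_comm (y ^ n), ← mul_assoc (2 ^ n'), hyn, one_mul]
      calc (if α i ≤ (k : ℕ) then 1 else -1 : ZMod e) * (u i : ZMod e) * 2 ^ E * y ^ n' =
          (u i : ZMod e) * ((if α i ≤ (k : ℕ) then 1 else -1 : ZMod e) * 2 ^ E * y ^ n') := by ring
        _ = _ := by rw [e1]; ring
    · rw [if_neg h, if_neg h, Int.cast_zero, zero_mul]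
  rw [Finset.sum_congr rfl fun k' _ => hterm k', Finset.sum_comm]
  have h3 : ∀ i : ι, ∑ k' : Fin q, (if (k' : ℕ) = kk q (α i) k then
      (u i : ZMod e) * 2 ^ (s + a i) * y ^ (N * (k : ℕ) / q) else 0) =
      (u i : ZMod e) * 2 ^ (a i) * (2 ^ s * y ^ (N * (k : ℕ) / q)) := by
    intro i
    rw [Finset.sum_eq_single (⟨kk q (α i) k, kk_lt q (α i) k k.2 (hα i)⟩ : Fin q)]
    · rw [if_pos rfl, pow_add]; ring
    · intro b _ hb
      rw [if_neg]
      intro hcon
      exact hb (Fin.ext hcon)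
    · intro hcon
      exact absurd (Finset.mem_univ _) hcon
  rw [Finset.sum_congr rfl fun i _ => h3 i, ← Finset.sum_mul, hD', zero_mul]

end Pool.Agent.J4.H7.FG
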