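import Pool.Agent.J4.H7.FG.Mat

/-!
# The determinant does not vanish
-/

set_option autoImplicit false

namespace Pool.Agent.J4.H7.FG

open Finset Polynomial

variable {ι : Type} [Fintype ι]

/-- if the determinant vanishes then the Fermat number divides the sparse integer -/
theorem dvd_of_det (m q s : ℕ) (hq : 0 < q) (hqm : q ≤ 2 ^ m) (u : ι → ℤ) (a α : ι → ℕ) (hα : ∀ i, α i ≤ q)
    (hE : ∀ i, ∀ k < q, 0 ≤ Ex (2 ^ m) q s (a i) (α i) k) (hdet : (Mx (2 ^ m) q s u a α).det = 0) :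
    (2 : ℤ) ^ (2 ^ m) + 1 ∣ ∑ i, u i * 2 ^ (a i) := by
  obtain ⟨N, hN⟩ : ∃ N, N = 2 ^ m := ⟨_, rfl⟩
  have hirr := irr m q hq hqm
  rw [← hN] at hirr hE hdet ⊢
  obtain ⟨P, hP⟩ : ∃ P : ℚ[X], P = X ^ q + C ((2 : ℚ) ^ N) := ⟨_, rfl⟩
  rw [← hP] at hirr
  have hPm : P.Monic := by rw [hP]; exact monic_X_pow_add_C _ hq.ne'
  have hPd : P.natDegree = q := by rw [hP]; exact natDegree_X_pow_add_C
  have : Fact (Irreducible P) := ⟨hirr⟩
  -- the field
  obtain ⟨Ψ, hΨ⟩ : ∃ Ψ : AdjoinRoot P, Ψ = AdjoinRoot.root P := ⟨_, rfl⟩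
  have hΨq : Ψ ^ q = -2 ^ N := by
    have h1 : AdjoinRoot.mk P (X ^ q + C ((2 : ℚ) ^ N)) = 0 := by rw [← hP, AdjoinRoot.mk_self]
    simp only [map_add, map_pow, AdjoinRoot.mk_X, AdjoinRoot.mk_C, map_ofNat] at h1
    rw [hΨ]
    exact eq_neg_of_add_eq_zero_left h1
  have h2 : (2 : AdjoinRoot P) ≠ 0 := by
    intro h
    have h3 : AdjoinRoot.of P 2 = AdjoinRoot.of P 0 := by rw [map_ofNat, map_zero]; exact h
    exact absurd ((AdjoinRoot.of P).injective h3) (by norm_num)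
  have hyn : ∀ n : ℕ, (2 : AdjoinRoot P) ^ n * (2 : AdjoinRoot P)⁻¹ ^ n = 1 := fun n => by
    rw [← mul_pow, mul_inv_cancel₀ h2, one_pow]
  obtain ⟨y, hy⟩ : ∃ y : AdjoinRoot P, y = 2⁻¹ := ⟨_, rfl⟩
  rw [← hy] at hyn
  -- a kernel vector
  obtain ⟨z, hz0, hz⟩ := Matrix.exists_vecMul_eq_zero_iff.2 hdet
  obtain ⟨B, hB⟩ : ∃ B : AdjoinRoot P, B = ∑ i, (u i : AdjoinRoot P) * 2 ^ (a i) * Ψ ^ (q - α i) := ⟨_, rfl⟩
  -- the rows
  have hrow : ∀ k : Fin q, 2 ^ s * B * (Ψ ^ (k : ℕ) * y ^ (N * (k : ℕ) / q)) =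
      Ψ ^ q * ∑ k' : Fin q, (Mx N q s u a α k k' : AdjoinRoot P) * (Ψ ^ (k' : ℕ) * y ^ (N * (k' : ℕ) / q)) := by
    intro k
    have hterm : ∀ k' : Fin q, (Mx N q s u a α k k' : AdjoinRoot P) * (Ψ ^ (k' : ℕ) * y ^ (N * (k' : ℕ) / q)) =
        ∑ i, if (k' : ℕ) = kk q (α i) k then
          (if α i ≤ (k : ℕ) then 1 else -1 : AdjoinRoot P) * (u i : AdjoinRoot P) *
            2 ^ (Ex N q s (a i) (α i) k).toNat * (Ψ ^ (kk q (α i) k) * y ^ (N * kk q (α i) k / q)) else 0 := by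
      intro k'
      unfold Mx
      rw [Int.cast_sum, Finset.sum_mul]
      apply Finset.sum_congr rfl
      intro i _
      by_cases h : (k' : ℕ) = kk q (α i) k
      · rw [if_pos h, if_pos h, ← h]
        push_cast
        rfl
      · rw [if_neg h, if_neg h, Int.cast_zero, zero_mul]
    rw [Finset.sum_congr rfl fun k' _ => hterm k', Finset.sum_comm, hB, Finset.mul_sum, Finset.sum_mul, Finset.mul_sum]
    apply Finset.sum_congr rfl
    intro i _
    rw [Finset.sum_eq_single (⟨kk q (α i) k, kk_lt q (α i) k k.2 (hα i)⟩ : Fin q)]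
    · rw [if_pos rfl]
      have h1 := Ex_nat N q s (a i) (α i) k (hE i k k.2)
      obtain ⟨E, hE'⟩ : ∃ E, E = (Ex N q s (a i) (α i) (k : ℕ)).toNat := ⟨_, rfl⟩
      obtain ⟨n, hn⟩ : ∃ n, n = N * (k : ℕ) / q := ⟨_, rfl⟩
      obtain ⟨n', hn'⟩ : ∃ n', n' = N * kk q (α i) k / q := ⟨_, rfl⟩
      rw [← hE', ← hn, ← hn'] at h1
      rw [← hE', ← hn, ← hn']
      -- the powers of two
      have e1 : (2 : AdjoinRoot P) ^ (E + (if α i ≤ (k : ℕ) then 0 else N)) * y ^ n' = 2 ^ (s + a i) * y ^ n := by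
        have e2 : (2 : AdjoinRoot P) ^ (E + (if α i ≤ (k : ℕ) then 0 else N)) = 2 ^ (s + a i + n') * y ^ n := by
          rw [← h1, show E + n + (if α i ≤ (k : ℕ) then 0 else N) = E + (if α i ≤ (k : ℕ) then 0 else N) + n by ring,
            pow_add _ _ n, mul_assoc, hyn, mul_one]
        rw [e2, pow_add _ (s + a i) n', mul_assoc, mul_assoc, mul_comm (y ^ n), ← mul_assoc (2 ^ n'), hyn, one_mul]
      have e3 : Ψ ^ (q - α i) * Ψ ^ (k : ℕ) * 2 ^ (E + (if α i ≤ (k : ℕ) then 0 else N)) =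
          Ψ ^ q * ((if α i ≤ (k : ℕ) then 1 else -1 : AdjoinRoot P) * 2 ^ E * Ψ ^ (kk q (α i) k)) := by
        have hαi := hα i
        unfold kk
        split_ifs with h3
        · rw [one_mul, add_zero, ← pow_add, show q - α i + (k : ℕ) = q + ((k : ℕ) - α i) by omega, pow_add]
          ring
        · rw [← pow_add, show q - α i + (k : ℕ) = q + (k : ℕ) - α i by omega, hΨq, pow_add]
          ring
      calc 2 ^ s * ((u i : AdjoinRoot P) * 2 ^ (a i) * Ψ ^ (q - α i)) * (Ψ ^ (k : ℕ) * y ^ n) =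
          (u i : AdjoinRoot P) * (Ψ ^ (q - α i) * Ψ ^ (k : ℕ)) * (2 ^ (s + a i) * y ^ n) := by rw [pow_add]; ring
        _ = (u i : AdjoinRoot P) * (Ψ ^ (q - α i) * Ψ ^ (k : ℕ) *
            2 ^ (E + (if α i ≤ (k : ℕ) then 0 else N))) * y ^ n' := by rw [← e1]; ring
        _ = _ := by rw [e3]; ring
    · intro b _ hb
      rw [if_neg]
      intro hcon
      exact hb (Fin.ext hcon)
    · intro hcon
      exact absurd (Finset.mem_univ _) hcon
  -- the product vanishes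
  obtain ⟨Z, hZ⟩ : ∃ Z : AdjoinRoot P, Z = ∑ k : Fin q, (z k : AdjoinRoot P) * (Ψ ^ (k : ℕ) * y ^ (N * (k : ℕ) / q)) := ⟨_, rfl⟩
  have hprod : 2 ^ s * B * Z = 0 := by
    rw [hZ, Finset.mul_sum]
    have h3 : ∀ k : Fin q, 2 ^ s * B * ((z k : AdjoinRoot P) * (Ψ ^ (k : ℕ) * y ^ (N * (k : ℕ) / q))) =
        ∑ k' : Fin q, Ψ ^ q * ((z k : AdjoinRoot P) * (Mx N q s u a α k k' : AdjoinRoot P)) *
          (Ψ ^ (k' : ℕ) * y ^ (N * (k' : ℕ) / q)) := by
      intro k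
      calc 2 ^ s * B * ((z k : AdjoinRoot P) * (Ψ ^ (k : ℕ) * y ^ (N * (k : ℕ) / q))) =
          (z k : AdjoinRoot P) * (2 ^ s * B * (Ψ ^ (k : ℕ) * y ^ (N * (k : ℕ) / q))) := by ring
        _ = _ := by
          rw [hrow k, Finset.mul_sum, Finset.mul_sum]
          apply Finset.sum_congr rfl
          intro k' _
          ring
    rw [Finset.sum_congr rfl fun k _ => h3 k, Finset.sum_comm]
    apply Finset.sum_eq_zero
    intro k' _
    rw [← Finset.sum_mul, ← Finset.mul_sum]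
    have h4 : ∑ k : Fin q, (z k : AdjoinRoot P) * (Mx N q s u a α k k' : AdjoinRoot P) = 0 := by
      have h5 := congrFun hz k'
      rw [Matrix.vecMul, dotProduct, Pi.zero_apply] at h5
      have h6 : ((∑ k : Fin q, z k * Mx N q s u a α k k' : ℤ) : AdjoinRoot P) = 0 := by rw [h5, Int.cast_zero]
      push_cast at h6
      exact h6
    rw [h4, mul_zero, zero_mul]
  -- `Z` is not zero
  have hZ0 : Z ≠ 0 := by
    intro hZ0
    obtain ⟨Zp, hZp⟩ : ∃ Zp : ℚ[X], Zp = ∑ k : Fin q, C ((z k : ℚ) * (2 : ℚ)⁻¹ ^ (N * (k : ℕ) / q)) * X ^ (k : ℕ) := ⟨_, rfl⟩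
    have h3 : (AdjoinRoot.mk P) Zp = 0 := by
      rw [← hZ0, hZ, hZp, map_sum]
      apply Finset.sum_congr rfl
      intro k _
      simp only [map_mul, map_pow, AdjoinRoot.mk_X, AdjoinRoot.mk_C, map_intCast, map_inv₀, map_ofNat]
      rw [hy, ← hΨ]
      ring
    rw [AdjoinRoot.mk_eq_zero] at h3
    have h4 : Zp.degree < P.degree := by
      rw [degree_eq_natDegree hPm.ne_zero, hPd, hZp]
      refine (degree_sum_le _ _).trans_lt ?_
      rw [Finset.sup_lt_iff (by exact WithBot.bot_lt_coe q)]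
      intro k _
      refine (degree_C_mul_X_pow_le _ _).trans_lt ?_
      exact_mod_cast k.2
    have h5 : Zp = 0 := eq_zero_of_dvd_of_degree_lt h3 h4
    apply hz0
    funext k
    have h6 : Zp.coeff k = (z k : ℚ) * (2 : ℚ)⁻¹ ^ (N * (k : ℕ) / q) := by
      rw [hZp, finsetSum_coeff, Finset.sum_eq_single k]
      · rw [coeff_C_mul_X_pow, if_pos rfl]
      · intro b _ hb
        rw [coeff_C_mul_X_pow, if_neg]
        intro hcon
        exact hb (Fin.ext hcon.symm)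
      · intro hcon
        exact absurd (Finset.mem_univ _) hcon
    rw [h5, coeff_zero] at h6
    have h7 : (z k : ℚ) = 0 := by
      rcases mul_eq_zero.1 h6.symm with h | h
      · exact h
      · exact absurd h (by positivity)
    exact_mod_cast h7
  have hB0 : B = 0 := by
    rcases mul_eq_zero.1 hprod with h | h
    · rcases mul_eq_zero.1 h with h' | h'
      · exact absurd h' (pow_ne_zero _ h2)
      · exact h'
    · exact absurd h hZ0
  -- the polynomial is a multiple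
  obtain ⟨β, hβ⟩ : ∃ β : ℚ[X], β = ∑ i, C ((u i : ℚ) * 2 ^ (a i)) * X ^ (q - α i) := ⟨_, rfl⟩
  have hdvd : P ∣ β := by
    rw [← AdjoinRoot.mk_eq_zero, ← hB0, hB, hβ, map_sum]
    apply Finset.sum_congr rfl
    intro i _
    simp only [map_mul, map_pow, AdjoinRoot.mk_X, AdjoinRoot.mk_C, map_intCast, map_ofNat]
    rw [hΨ]
  have hβd : β.natDegree ≤ q := by
    rw [hβ]
    apply natDegree_sum_le_of_forall_le
    intro i _
    exact (natDegree_C_mul_X_pow_le _ _).trans (Nat.sub_le _ _)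
  obtain ⟨H, hH⟩ := hdvd
  have hHd : H.natDegree = 0 := by
    by_cases hH0 : H = 0
    · rw [hH0, natDegree_zero]
    have h3 : β.natDegree = q + H.natDegree := by rw [hH, hPm.natDegree_mul' hH0, hPd]
    omega
  rw [natDegree_eq_zero] at hHd
  obtain ⟨h, hh⟩ := hHd
  -- the constant is an integer
  have hcoef : β.coeff q = h := by
    rw [hH, ← hh, coeff_mul_C, ← hPd, hPm.coeff_natDegree, one_mul]
  have hint : ∃ c : ℤ, (c : ℚ) = h := by
    rw [← hcoef, hβ, finsetSum_coeff]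
    refine ⟨∑ i, if q = q - α i then u i * 2 ^ (a i) else 0, ?_⟩
    push_cast
    apply Finset.sum_congr rfl
    intro i _
    rw [coeff_C_mul_X_pow]
  obtain ⟨c, hc⟩ := hint
  refine ⟨c, ?_⟩
  have h3 : β.eval 1 = (2 ^ N + 1) * h := by
    rw [hH, ← hh, eval_mul, eval_C, hP, eval_add, eval_pow, eval_X, eval_C, one_pow]
    ring
  have h4 : β.eval 1 = ∑ i, (u i : ℚ) * 2 ^ (a i) := by
    rw [hβ, eval_finsetSum]
    apply Finset.sum_congr rfl
    intro i _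
    simp
  have h5 : (∑ i, (u i : ℚ) * 2 ^ (a i)) = (2 ^ N + 1) * c := by rw [← h4, h3, hc]
  exact_mod_cast h5

/-- **the core**: all exponents below `2 ^ m`, with a given simultaneous approximation -/
theorem core (m q t : ℕ) (hq : 0 < q) (hqm : q ≤ 2 ^ m) (ht : 0 < t) (u : ι → ℤ) (a α : ι → ℕ) (hα : ∀ i, α i ≤ q)
    (h : ∀ i, (t : ℤ) * |(q : ℤ) * a i - α i * (2 ^ m : ℕ)| ≤ (2 ^ m : ℕ))
    (hF : ¬ (2 : ℤ) ^ (2 ^ m) + 1 ∣ ∑ i, u i * 2 ^ (a i)) (e : ℕ) (he : e ∣ 2 ^ (2 ^ m) + 1)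
    (hD : (e : ℤ) ∣ ∑ i, u i * 2 ^ (a i)) :
    (e : ℤ) ≤ (4 * ∑ i, |u i|) ^ q * 4 ^ (2 ^ m / t) := by
  obtain ⟨N, hN⟩ : ∃ N, N = 2 ^ m := ⟨_, rfl⟩
  have hN0 : 0 < N := by rw [hN]; positivity
  obtain ⟨s, hs⟩ : ∃ s, s = N / (t * q) + 1 := ⟨_, rfl⟩
  have hE : ∀ i, ∀ k < q, 0 ≤ Ex N q s (a i) (α i) k := fun i k hk => by
    rw [hs, hN]
    exact (Ex_bounds (2 ^ m) q t (a i) (α i) k hq ht (hα i) hk (h i)).1
  have h1 : (Mx N q s u a α).det ≠ 0 := by
    intro hdet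
    exact hF (dvd_of_det m q s hq hqm u a α hα (by rw [← hN]; exact hE) (by rw [← hN]; exact hdet))
  have h2 : (e : ℤ) ∣ (Mx N q s u a α).det :=
    dvd_det N q s hN0 u a α hq hα hE e (by rw [hN]; exact he) hD
  have h3 : (e : ℤ) ≤ |(Mx N q s u a α).det| := Int.le_of_dvd (abs_pos.2 h1) ((dvd_abs _ _).2 h2)
  refine h3.trans ((det_le_rows _).trans ?_)
  have h4 : ∀ k : Fin q, ∑ k' : Fin q, |Mx N q s u a α k k'| ≤ (∑ i, |u i|) * 4 ^ s := fun k => by
    rw [hs]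
    exact row_le N q t u a α hq ht hα (by rw [hN]; exact h) k
  have hU : 0 ≤ ∑ i, |u i| := Finset.sum_nonneg fun i _ => abs_nonneg _
  calc ∏ k : Fin q, ∑ k' : Fin q, |Mx N q s u a α k k'| ≤ ∏ _k : Fin q, (∑ i, |u i|) * 4 ^ s :=
        Finset.prod_le_prod (fun k _ => Finset.sum_nonneg fun _ _ => abs_nonneg _) fun k _ => h4 k
    _ = ((∑ i, |u i|) * 4 ^ s) ^ q := by rw [Finset.prod_const, Finset.card_univ, Fintype.card_fin]
    _ = (4 * ∑ i, |u i|) ^ q * 4 ^ (q * (N / (t * q))) := by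
        rw [hs, pow_succ, mul_pow, mul_pow, mul_pow, ← pow_mul, mul_comm q]
        ring
    _ ≤ (4 * ∑ i, |u i|) ^ q * 4 ^ (N / t) := by
        apply mul_le_mul_of_nonneg_left _ (by positivity)
        apply pow_le_pow_right₀ (by norm_num)
        rw [← Nat.div_div_eq_div_mul]
        exact Nat.mul_div_le _ _
    _ = _ := by rw [hN]

end Pool.Agent.J4.H7.FG
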